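import Mathlib
import Pool.Agent.Y734.R.Stms5

/-!
# Project Y734/R, job P4 (helper975): the polynomial bound from the big clusters

The second half follows job CA (helper824) and job CB (helper340).
-/

set_option autoImplicit false

namespace Pool.Agent.Y734.R.P4

open Pool.Agent.Y734.R

section

variable {G : Type} [AddCommGroup G] [LinearOrder G] [IsOrderedAddMonoid G] {q m : ℕ}

/-- `D s` is the maximum of `d s` on the pairs of distinct points of `A`. -/
def IsD (d : Fin q → Fin m → Fin m → G) (A : Finset (Fin m)) (D : Fin q → G) : Prop :=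
  (∀ s, ∀ i ∈ A, ∀ j ∈ A, i ≠ j → d s i j ≤ D s) ∧
    ∀ s, ∃ i ∈ A, ∃ j ∈ A, i ≠ j ∧ d s i j = D s

omit [IsOrderedAddMonoid G] [AddCommGroup G] in
lemma exists_isD (d : Fin q → Fin m → Fin m → G) (A : Finset (Fin m)) (hA : 2 ≤ A.card) :
    ∃ D, IsD d A D := by
  have hne : A.offDiag.Nonempty := by
    obtain ⟨a, ha, b, hb, hab⟩ := Finset.one_lt_card.1 (show 1 < A.card by omega)
    exact ⟨(a, b), by simp [ha, hb, hab]⟩
  have h : ∀ s, ∃ p ∈ A.offDiag, ∀ p' ∈ A.offDiag, d s p'.1 p'.2 ≤ d s p.1 p.2 :=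
    fun s => Finset.exists_max_image A.offDiag (fun p => d s p.1 p.2) hne
  choose p hp hmax using h
  refine ⟨fun s => d s (p s).1 (p s).2, ?_, ?_⟩
  · intro s i hi j hj hij
    exact hmax s (i, j) (by simp [hi, hj, hij])
  · intro s
    have h1 := hp s
    simp only [Finset.mem_offDiag] at h1
    exact ⟨_, h1.1, _, h1.2.1, h1.2.2, rfl⟩

lemma pick {ι : Type} (S : Finset ι) (f : ι → G) (e : G) (hS : S.Nonempty)
    (h : e ≤ ∑ s ∈ S, f s) : ∃ s ∈ S, e ≤ S.card • f s := by
  by_contra hc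
  push Not at hc
  have h1 : ∑ s ∈ S, S.card • f s < ∑ _s ∈ S, e := Finset.sum_lt_sum_of_nonempty hS hc
  rw [← Finset.smul_sum, Finset.sum_const] at h1
  have h2 : S.card • e ≤ S.card • ∑ s ∈ S, f s := nsmul_le_nsmul_right h _
  exact absurd h2 (not_le.2 h1)

/-- The similarity of `d`. -/
def SA (d : Fin q → Fin m → Fin m → G) (D : Fin q → G) (s : Fin q) (i j : Fin m) : G :=
  if i = j then ∑ t, D t else D s - d s i j

omit [LinearOrder G] [IsOrderedAddMonoid G] in
lemma SA_diag (d : Fin q → Fin m → Fin m → G) (D : Fin q → G) (s : Fin q) (i : Fin m) :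
    SA d D s i i = ∑ t, D t := if_pos rfl

omit [LinearOrder G] [IsOrderedAddMonoid G] in
lemma SA_off (d : Fin q → Fin m → Fin m → G) (D : Fin q → G) (s : Fin q) {i j : Fin m}
    (h : i ≠ j) : SA d D s i j = D s - d s i j := if_neg h

/-- The first estimate. -/
lemma first (q m : ℕ) (e : G) (he : 0 ≤ e) (A : Fin q → Fin m → Fin m → G)
    (hAs : ∀ i j, i ≠ j → ∑ s, A s i j = e)
    (K : Fin q → Finset (Fin m)) (b : Fin q → G)
    (hb : ∀ s, ∀ i ∈ K s, ∀ j ∈ K s, b s ≤ A s i j)
    (hK : ∀ s, ∑ i ∈ K s, ∑ j ∈ K s, (A s i j - b s) ≤ (2 * q * (q - 1) * m) • e)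
    (Z : Finset (Fin m)) (hZ : ∀ s, Z ⊆ K s) (hm : m ≤ 2 * Z.card) (hZ0 : 0 < Z.card) :
    (Z.card - 1) • (e - ∑ s, b s) ≤ (4 * q ^ 2 * (q - 1)) • e := by
  classical
  set e' : G := e - ∑ s, b s with he'
  -- the sum over the pairs of `Z`
  have h1 : ∀ s, ∑ i ∈ Z, ∑ j ∈ Z, (A s i j - b s) ≤ (2 * q * (q - 1) * m) • e := by
    intro s
    refine le_trans ?_ (hK s)
    calc ∑ i ∈ Z, ∑ j ∈ Z, (A s i j - b s) ≤ ∑ i ∈ Z, ∑ j ∈ K s, (A s i j - b s) := by
          refine Finset.sum_le_sum fun i hi => ?_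
          exact Finset.sum_le_sum_of_subset_of_nonneg (hZ s) fun j hj _ =>
            sub_nonneg.2 (hb s i (hZ s hi) j hj)
      _ ≤ ∑ i ∈ K s, ∑ j ∈ K s, (A s i j - b s) :=
          Finset.sum_le_sum_of_subset_of_nonneg (hZ s) fun i hi _ =>
            Finset.sum_nonneg fun j hj => sub_nonneg.2 (hb s i hi j hj)
  have h2 : (Z.card * (Z.card - 1)) • e' ≤ ∑ s, ∑ i ∈ Z, ∑ j ∈ Z, (A s i j - b s) := by
    rw [Finset.sum_comm]
    have h3 : ∀ i ∈ Z, (Z.card - 1) • e' ≤ ∑ s, ∑ j ∈ Z, (A s i j - b s) := by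
      intro i hi
      rw [Finset.sum_comm, ← Finset.add_sum_erase Z _ hi]
      have h4 : 0 ≤ ∑ s, (A s i i - b s) :=
        Finset.sum_nonneg fun s _ => sub_nonneg.2 (hb s i (hZ s hi) i (hZ s hi))
      have h5 : ∑ j ∈ Z.erase i, ∑ s, (A s i j - b s) = (Z.card - 1) • e' := by
        have h6 : ∀ j ∈ Z.erase i, ∑ s, (A s i j - b s) = e' := by
          intro j hj
          rw [Finset.sum_sub_distrib, hAs i j (Finset.ne_of_mem_erase hj).symm]
        rw [Finset.sum_congr rfl h6, Finset.sum_const, Finset.card_erase_of_mem hi]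
      rw [h5]
      exact le_add_of_nonneg_left h4
    calc (Z.card * (Z.card - 1)) • e' = ∑ _i ∈ Z, (Z.card - 1) • e' := by
          rw [Finset.sum_const, ← mul_nsmul']
      _ ≤ _ := Finset.sum_le_sum h3
  have h3 : (Z.card * (Z.card - 1)) • e' ≤ (q * (2 * q * (q - 1) * m)) • e := by
    refine h2.trans ?_
    calc ∑ s, ∑ i ∈ Z, ∑ j ∈ Z, (A s i j - b s) ≤ ∑ _s : Fin q, (2 * q * (q - 1) * m) • e :=
          Finset.sum_le_sum fun s _ => h1 s
      _ = _ := by rw [Finset.sum_const, Finset.card_univ, Fintype.card_fin, ← mul_nsmul']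
  have h4 : (q * (2 * q * (q - 1) * m)) • e ≤ (Z.card * (4 * q ^ 2 * (q - 1))) • e := by
    refine nsmul_le_nsmul_left he ?_
    calc q * (2 * q * (q - 1) * m) ≤ q * (2 * q * (q - 1) * (2 * Z.card)) := by gcongr
      _ = Z.card * (4 * q ^ 2 * (q - 1)) := by ring
  have h5 := h3.trans h4
  rw [mul_nsmul', mul_nsmul'] at h5
  exact le_of_nsmul_le_nsmul_right hZ0.ne' h5

/-- The second estimate, as in CA. -/
lemma second (d : Fin q → Fin m → Fin m → G) (hq : 2 ≤ q)
    (hsym : ∀ s i j, d s i j = d s j i)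
    (hult : ∀ s i j l, i ≠ j → j ≠ l → i ≠ l → d s i l ≤ max (d s i j) (d s j l))
    (hsum : ∀ i j, i ≠ j → ∑ s, d s i j = 0) (D : Fin q → G) (hD : IsD d Finset.univ D)
    (Z : Finset (Fin m)) (hZ : q ≤ Z.card) (D' : Fin q → G) (hD' : IsD d Z D')
    (hlt0 : ∑ s, D' s < ∑ s, D s) : ∑ s, D s ≤ (q * (q - 1)) • ∑ s, D' s := by
  have hle : ∀ s i j, i ≠ j → d s i j ≤ D s := fun s i j hij =>
    hD.1 s i (Finset.mem_univ _) j (Finset.mem_univ _) hij
  have hne0 : (Finset.univ : Finset (Fin q)).Nonempty := ⟨⟨0, by omega⟩, Finset.mem_univ _⟩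
  obtain ⟨s1, -, hs1⟩ := pick Finset.univ (fun s => D s - D' s) (∑ s, D s - ∑ s, D' s)
    hne0 (by rw [Finset.sum_sub_distrib])
  rw [Finset.card_univ, Fintype.card_fin] at hs1
  have hdrop : D' s1 < D s1 := by
    by_contra hcon
    rw [not_lt] at hcon
    have h6 : q • (D s1 - D' s1) ≤ 0 := nsmul_nonpos (sub_nonpos.2 hcon) _
    exact absurd ((sub_pos.2 hlt0).trans_le (hs1.trans h6)) (lt_irrefl _)
  have hlt : ∀ i ∈ Z, ∀ j ∈ Z, i ≠ j → d s1 i j < D s1 := fun i hi j hj hij =>
    (hD'.1 s1 i hi j hj hij).trans_lt hdrop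
  -- the point `x`
  have hx : ∃ x, ∀ j ∈ Z, j ≠ x → d s1 x j = D s1 := by
    obtain ⟨a, -, b, -, hab, hdab⟩ := hD.2 s1
    by_cases ha : ∀ j ∈ Z, j ≠ a → d s1 a j = D s1
    · exact ⟨a, ha⟩
    · push Not at ha
      obtain ⟨j, hj, hja, hne⟩ := ha
      have hltj : d s1 a j < D s1 := lt_of_le_of_ne (hle s1 a j (Ne.symm hja)) hne
      have hjb : j ≠ b := by
        rintro rfl
        exact hne hdab
      have hbj : d s1 b j = D s1 := by
        refine le_antisymm (hle s1 b j (Ne.symm hjb)) ?_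
        have h6 := hult s1 a j b (Ne.symm hja) hjb hab
        rw [hdab] at h6
        rcases le_max_iff.1 h6 with h7 | h7
        · exact absurd h7 (not_le.2 hltj)
        · rwa [hsym s1 j b] at h7
      refine ⟨b, ?_⟩
      intro j' hj' hj'b
      by_cases hjj : j' = j
      · rw [hjj]
        exact hbj
      · refine le_antisymm (hle s1 b j' (Ne.symm hj'b)) ?_
        have h6 := hult s1 b j' j (Ne.symm hj'b) hjj (Ne.symm hjb)
        rw [hbj] at h6
        rcases le_max_iff.1 h6 with h7 | h7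
        · exact h7
        · exact absurd h7 (not_le.2 (hlt j' hj' j hj hjj))
  obtain ⟨x, hx⟩ := hx
  have hxA : x ∉ Z := by
    intro hxA
    obtain ⟨j, hj, hjx⟩ := Finset.exists_mem_ne (show 1 < Z.card by omega) x
    exact absurd (hx j hj hjx) (ne_of_lt (hlt x hxA j hj (Ne.symm hjx)))
  have hsumD' : ∀ i j, i ≠ j → ∑ s, (D' s - d s i j) = ∑ s, D' s := by
    intro i j hij
    rw [Finset.sum_sub_distrib, hsum i j hij, sub_zero]
  have he' : 0 ≤ ∑ s, D' s := by
    obtain ⟨i, hi, j, hj, hij, -⟩ := hD'.2 s1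
    rw [← hsumD' i j hij]
    exact Finset.sum_nonneg fun s _ => sub_nonneg.2 (hD'.1 s i hi j hj hij)
  -- the choice of `s(j)`
  have hcard : (Finset.univ.erase s1 : Finset (Fin q)).card = q - 1 := by
    rw [Finset.card_erase_of_mem (Finset.mem_univ _), Finset.card_univ, Fintype.card_fin]
  have hchoice : ∀ j ∈ Z, ∃ s, s ≠ s1 ∧
      ∑ t, D t ≤ (q - 1) • (q • (D' s - d s x j)) := by
    intro j hj
    have hjx : x ≠ j := by
      rintro rfl
      exact hxA hj
    have h6 : ∑ t, D t ≤ ∑ s ∈ Finset.univ.erase s1, q • (D' s - d s x j) := by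
      have h7 : q • (D' s1 - d s1 x j) + ∑ s ∈ Finset.univ.erase s1, q • (D' s - d s x j) =
          q • ∑ s, D' s := by
        rw [Finset.add_sum_erase Finset.univ (fun s => q • (D' s - d s x j))
          (Finset.mem_univ s1), ← Finset.smul_sum, hsumD' x j hjx]
      rw [hx j hj (Ne.symm hjx)] at h7
      have h8 : q • (D' s1 - D s1) = - (q • (D s1 - D' s1)) := by
        rw [← smul_neg, neg_sub]
      rw [h8] at h7
      have h9 : ∑ t, D' t ≤ q • ∑ s, D' s := by
        calc ∑ t, D' t = 1 • ∑ t, D' t := (one_nsmul _).symm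
          _ ≤ q • ∑ s, D' s := nsmul_le_nsmul_left he' (by omega)
      rw [← h7] at h9
      have h10 : ∑ t, D' t + q • (D s1 - D' s1) ≤
          ∑ s ∈ Finset.univ.erase s1, q • (D' s - d s x j) := by
        have h12 := le_neg_add_iff_add_le.1 h9
        rwa [add_comm] at h12
      have h11 : ∑ t, D t ≤ ∑ t, D' t + q • (D s1 - D' s1) := by
        rw [← sub_le_iff_le_add']
        exact hs1
      exact h11.trans h10
    obtain ⟨s, hs', h7⟩ := pick _ _ _ (Finset.card_pos.1 (by omega)) h6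
    rw [hcard] at h7
    exact ⟨s, (Finset.mem_erase.1 hs').1, h7⟩
  have hne1 : Nonempty (Fin q) := ⟨s1⟩
  choose! f hf1 hf2 using hchoice
  obtain ⟨j, hj, j', hj', hjj, hff⟩ := Finset.exists_ne_map_eq_of_card_lt_of_maps_to
    (s := Z) (t := Finset.univ.erase s1) (f := f) (by rw [hcard]; omega)
    (fun j hj => by
      have := hf1 j hj
      simpa using this)
  have hxj : x ≠ j := by
    rintro rfl
    exact hxA hj
  have hxj' : x ≠ j' := by
    rintro rfl
    exact hxA hj'
  have hfin : ∑ t, D t ≤ (q - 1) • (q • (D' (f j) - d (f j) j j')) := by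
    have h6 := hf2 j hj
    have h7 := hf2 j' hj'
    rw [← hff] at h7
    have h8 := hult (f j) j x j' (Ne.symm hxj) hxj' hjj
    rcases le_max_iff.1 h8 with h9 | h9
    · rw [hsym (f j) j x] at h9
      exact h6.trans (nsmul_le_nsmul_right (nsmul_le_nsmul_right (sub_le_sub_left h9 _) _) _)
    · exact h7.trans (nsmul_le_nsmul_right (nsmul_le_nsmul_right (sub_le_sub_left h9 _) _) _)
  have hone : D' (f j) - d (f j) j j' ≤ ∑ s, D' s := by
    rw [← hsumD' j j' hjj]
    exact Finset.single_le_sum (f := fun s => D' s - d s j j')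
      (fun t _ => sub_nonneg.2 (hD'.1 t j hj j' hj' hjj)) (Finset.mem_univ (f j))
  refine hfin.trans ?_
  rw [← mul_nsmul', mul_comm (q - 1) q]
  exact nsmul_le_nsmul_right hone _

end

theorem cc (h : BigStmt) : CombCStmt := by
  classical
  intro G _ _ _ q m d hq hm hsym hult hsum
  have hq0 : 0 < q := by omega
  have hq5 : q ≤ q ^ 5 := Nat.le_self_pow (by norm_num) q
  have hm0 : 0 < m := by omega
  have hXc : (Finset.univ : Finset (Fin m)).card = m := by simp
  obtain ⟨D, hD⟩ := exists_isD d Finset.univ (by rw [hXc]; omega)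
  have hle : ∀ s i j, i ≠ j → d s i j ≤ D s := fun s i j hij =>
    hD.1 s i (Finset.mem_univ _) j (Finset.mem_univ _) hij
  have hsumD : ∀ i j, i ≠ j → ∑ s, (D s - d s i j) = ∑ s, D s := by
    intro i j hij
    rw [Finset.sum_sub_distrib, hsum i j hij, sub_zero]
  have hle1 : ∀ s i j, i ≠ j → D s - d s i j ≤ ∑ t, D t := by
    intro s i j hij
    rw [← hsumD i j hij]
    exact Finset.single_le_sum (f := fun s => D s - d s i j)
      (fun t _ => sub_nonneg.2 (hle t i j hij)) (Finset.mem_univ s)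
  -- it is enough that the sum is zero
  suffices he : ∑ s, D s ≤ 0 by
    have h1 : ∀ s i j, i ≠ j → d s i j = D s := fun s i j hij =>
      le_antisymm (hle s i j hij) (sub_nonpos.1 ((hle1 s i j hij).trans he))
    intro s i j a b hij hab
    rw [h1 s i j hij, h1 s a b hab]
  by_contra hpos
  rw [not_le] at hpos
  have hAd : ∀ s i, SA d D s i i = ∑ t, D t := fun s i => SA_diag d D s i
  have hAle : ∀ s i j, SA d D s i j ≤ ∑ t, D t := by
    intro s i j
    by_cases hij : i = j
    · subst hij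
      exact (hAd s i).le
    · rw [SA_off d D s hij]
      exact hle1 s i j hij
  have hAs : ∀ i j, i ≠ j → ∑ s, SA d D s i j = ∑ t, D t := by
    intro i j hij
    rw [← hsumD i j hij]
    exact Finset.sum_congr rfl fun s _ => SA_off d D s hij
  have hSim : ∀ s, Sim (SA d D s) := by
    intro s
    refine ⟨?_, ?_, ?_, ?_⟩
    · intro i j
      by_cases hij : i = j
      · subst hij
        rw [hAd]
        exact hpos.le
      · rw [SA_off d D s hij]
        exact sub_nonneg.2 (hle s i j hij)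
    · intro i j
      by_cases hij : i = j
      · subst hij
        rfl
      · rw [SA_off d D s hij, SA_off d D s (Ne.symm hij), hsym]
    · intro i j l
      by_cases hil : i = l
      · subst hil
        rw [hAd s i]
        exact (min_le_left _ _).trans (hAle s i j)
      · by_cases hij : i = j
        · subst hij
          exact min_le_right _ _
        · by_cases hjl : j = l
          · subst hjl
            exact min_le_left _ _
          · rw [SA_off d D s hil, SA_off d D s hij, SA_off d D s hjl]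
            rcases le_max_iff.1 (hult s i j l hij hjl hil) with h1 | h1
            · exact (min_le_left _ _).trans (sub_le_sub_left h1 _)
            · exact (min_le_right _ _).trans (sub_le_sub_left h1 _)
    · intro i j
      rw [hAd s i]
      exact hAle s i j
  have hbig := h G q m (∑ t, D t) (SA d D) hm0 hSim hAd hAs
  choose K b hKm hb0 hbK hKs using hbig
  -- the intersection of the clusters
  obtain ⟨Z, hZdef⟩ : ∃ Z : Finset (Fin m), Z = Finset.univ.filter (fun i => ∀ s, i ∈ K s) :=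
    ⟨_, rfl⟩
  have hZK : ∀ s, Z ⊆ K s := by
    intro s i hi
    rw [hZdef, Finset.mem_filter] at hi
    exact hi.2 s
  have hZc : m - Z.card ≤ ∑ s, (m - (K s).card) := by
    have h1 : Zᶜ ⊆ Finset.univ.biUnion fun s => (K s)ᶜ := by
      intro i hi
      rw [Finset.mem_compl, hZdef, Finset.mem_filter] at hi
      push Not at hi
      obtain ⟨s, hs⟩ := hi (Finset.mem_univ _)
      exact Finset.mem_biUnion.2 ⟨s, Finset.mem_univ _, Finset.mem_compl.2 hs⟩
    have h2 := (Finset.card_le_card h1).trans Finset.card_biUnion_le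
    simpa [Finset.card_compl, Fintype.card_fin] using h2
  have hm2 : m ≤ 2 * Z.card := by
    have h1 : 2 * q * (m - Z.card) ≤ q * m := by
      calc 2 * q * (m - Z.card) ≤ 2 * q * ∑ s, (m - (K s).card) := Nat.mul_le_mul_left _ hZc
        _ = ∑ s, 2 * q * (m - (K s).card) := Finset.mul_sum _ _ _
        _ ≤ ∑ _s : Fin q, m := Finset.sum_le_sum fun s _ => hKm s
        _ = q * m := by rw [Finset.sum_const, Finset.card_univ, Fintype.card_fin, smul_eq_mul]
    have h2 : q * (2 * (m - Z.card)) ≤ q * m := by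
      calc q * (2 * (m - Z.card)) = 2 * q * (m - Z.card) := by ring
        _ ≤ q * m := h1
    have h3 := Nat.le_of_mul_le_mul_left h2 hq0
    omega
  have hZq : q ≤ Z.card := by omega
  have hZ2 : 2 ≤ Z.card := by omega
  obtain ⟨D', hD'⟩ := exists_isD d Z hZ2
  have hfst := first q m (∑ t, D t) hpos.le (SA d D) hAs K b hbK hKs Z hZK hm2
    (by omega)
  -- `e_Z ≤ e'`
  have hZe : ∑ s, D' s ≤ ∑ t, D t - ∑ s, b s := by
    rw [le_sub_iff_add_le, ← Finset.sum_add_distrib]
    refine Finset.sum_le_sum fun s _ => ?_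
    obtain ⟨i, hi, j, hj, hij, hdij⟩ := hD'.2 s
    have h1 := hbK s i (hZK s hi) j (hZK s hj)
    rw [SA_off d D s hij, hdij, le_sub_iff_add_le, add_comm] at h1
    exact h1
  have hq1 : 1 ≤ q * (q - 1) := Nat.mul_pos hq0 (by omega)
  have hsnd : ∑ t, D t ≤ (q * (q - 1)) • (∑ t, D t - ∑ s, b s) := by
    rcases lt_or_ge (∑ s, D' s) (∑ s, D s) with hlt | hge
    · exact (second d hq hsym hult hsum D hD Z hZq D' hD' hlt).trans
        (nsmul_le_nsmul_right hZe _)
    · have h1 : ∑ t, D t ≤ ∑ t, D t - ∑ s, b s := hge.trans hZe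
      calc ∑ t, D t ≤ ∑ t, D t - ∑ s, b s := h1
        _ = 1 • (∑ t, D t - ∑ s, b s) := (one_nsmul _).symm
        _ ≤ (q * (q - 1)) • (∑ t, D t - ∑ s, b s) :=
          nsmul_le_nsmul_left (hpos.le.trans h1) hq1
  set e' : G := ∑ t, D t - ∑ s, b s with he'
  have he'0 : 0 < e' := by
    by_contra hcon
    rw [not_lt] at hcon
    exact absurd (hpos.trans_le (hsnd.trans (nsmul_nonpos hcon _))) (lt_irrefl _)
  have h1 : (Z.card - 1) • e' ≤ (4 * q ^ 2 * (q - 1) * (q * (q - 1))) • e' := by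
    refine hfst.trans ?_
    rw [mul_nsmul' e']
    exact nsmul_le_nsmul_right hsnd _
  have h2 : Z.card - 1 ≤ 4 * q ^ 2 * (q - 1) * (q * (q - 1)) := by
    by_contra hcon
    rw [not_le] at hcon
    exact absurd h1 (not_le.2 (nsmul_lt_nsmul_left he'0 hcon))
  obtain ⟨p, rfl⟩ : ∃ p, q = p + 1 := ⟨q - 1, by omega⟩
  rw [Nat.add_sub_cancel] at h2
  have h3 : 8 * (p + 1) ^ 5 = 2 * (4 * (p + 1) ^ 2 * p * ((p + 1) * p)) +
      8 * (p + 1) ^ 3 * (2 * p + 1) := by ring
  have h4 : 1 ≤ (p + 1) ^ 3 := Nat.one_le_pow _ _ (by omega)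
  have h5 : 8 ≤ 8 * (p + 1) ^ 3 * (2 * p + 1) := by
    calc 8 = 8 * 1 * 1 := by norm_num
      _ ≤ 8 * (p + 1) ^ 3 * (2 * p + 1) := by gcongr; omega
  omega

end Pool.Agent.Y734.R.P4
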